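import Pool.Agent.Run7.h245.SR.Iface2
import Pool.Agent.Run7.h245.NF.Rt
import Pool.Agent.N459.PF.Ram

/-!
# Piece MULW of project SR (helper245): local solvability at the primes where the discriminant has
valuation one
-/

set_option autoImplicit false
set_option linter.all false

open Polynomial IsDedekindDomain Matrix NumberField
open scoped Classical

namespace Pool.Agent.Run7.h890.SR

open Pool.Agent.Run7.h245.SR
open Pool.Agent.N783.PF
open Pool.Agent.N874.PP (Ev Sq1 U0)
open Pool.Agent.N874.PM (PLoc)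

/-! ### Norms for cubic polynomials -/

section norm

variable {k : Type} [CommRing k] [Nontrivial k]

theorem cb_monic (A B : k) : (X ^ 3 + C A * X + C B : k[X]).Monic := by
  monicity!

theorem cb_natDegree (A B : k) : (X ^ 3 + C A * X + C B : k[X]).natDegree = 3 := by
  compute_degree!

/-- Norm of an element of `k[X]/(X ^ 3 + A X + B)`. -/
theorem norm_cb (A B c0 c1 c2 : k) :
    Algebra.norm k (AdjoinRoot.mk (X ^ 3 + C A * X + C B : k[X])
      (C c0 + C c1 * X + C c2 * X ^ 2)) =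
      (!![c0, -(B * c2), -(B * c1); c1, c0 - A * c2, -(A * c1) - B * c2; c2, c1, c0 - A * c2] :
        Matrix (Fin 3) (Fin 3) k).det := by
  have hm := cb_monic A B
  obtain ⟨p, hp⟩ : ∃ p : k[X], p = X ^ 3 + C A * X + C B := ⟨_, rfl⟩
  have hpd := cb_natDegree A B
  rw [← hp] at hm hpd ⊢
  let b₀ := (AdjoinRoot.powerBasis' hm).basis
  have hdim : (AdjoinRoot.powerBasis' hm).dim = 3 := by
    rw [AdjoinRoot.powerBasis'_dim, hpd]
  let b := b₀.reindex (finCongr hdim)
  have hb : ∀ i : Fin 3, b i = AdjoinRoot.root p ^ (i : ℕ) := by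
    intro i
    show (b₀.reindex (finCongr hdim)) i = _
    rw [Module.Basis.reindex_apply, PowerBasis.basis_eq_pow, AdjoinRoot.powerBasis'_gen]
    rfl
  have hroot : AdjoinRoot.root p ^ 3 = -(AdjoinRoot.of p A * AdjoinRoot.root p) -
      AdjoinRoot.of p B := by
    have h1 : AdjoinRoot.mk p p = 0 := AdjoinRoot.mk_self
    have h2 : AdjoinRoot.mk p p = AdjoinRoot.root p ^ 3 +
        AdjoinRoot.of p A * AdjoinRoot.root p + AdjoinRoot.of p B := by
      conv_lhs => arg 2; rw [hp]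
      rw [map_add, map_add, map_mul, map_pow, AdjoinRoot.mk_X, AdjoinRoot.mk_C, AdjoinRoot.mk_C]
    rw [h1] at h2
    linear_combination -h2
  set M : Matrix (Fin 3) (Fin 3) k :=
    !![c0, -(B * c2), -(B * c1); c1, c0 - A * c2, -(A * c1) - B * c2; c2, c1, c0 - A * c2] with hM
  have key : Algebra.lmul k _ (AdjoinRoot.mk p (C c0 + C c1 * X + C c2 * X ^ 2)) =
      Matrix.toLin b b M := by
    apply b.ext
    intro i
    rw [Matrix.toLin_self]
    have e : AdjoinRoot.mk p (C c0 + C c1 * X + C c2 * X ^ 2) =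
        AdjoinRoot.of p c0 + AdjoinRoot.of p c1 * AdjoinRoot.root p +
          AdjoinRoot.of p c2 * AdjoinRoot.root p ^ 2 := by
      rw [map_add, map_add, map_mul, map_mul, map_pow, AdjoinRoot.mk_X, AdjoinRoot.mk_C,
        AdjoinRoot.mk_C, AdjoinRoot.mk_C]
    show AdjoinRoot.mk p (C c0 + C c1 * X + C c2 * X ^ 2) * b i = _
    rw [e]
    simp only [hb, Fin.sum_univ_three, Algebra.smul_def, AdjoinRoot.algebraMap_eq]
    generalize AdjoinRoot.root p = r at *
    fin_cases i
    · simp [hM]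
    · simp [hM]
      linear_combination (AdjoinRoot.of p c2) * hroot
    · simp [hM]
      linear_combination (AdjoinRoot.of p c1 + AdjoinRoot.of p c2 * r) * hroot
  rw [Algebra.norm_apply, key, LinearMap.det_toLin]

/-- The norm in the case of a double zero. -/
theorem norm_dbl (a : k) (g : k[X]) :
    Algebra.norm k (AdjoinRoot.mk (X ^ 3 + C (-3 * a ^ 2) * X + C (2 * a ^ 3) : k[X]) g) =
      (g.eval a) ^ 2 * g.eval (-2 * a) := by
  have hm := cb_monic (-3 * a ^ 2) (2 * a ^ 3)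
  have hpd := cb_natDegree (-3 * a ^ 2) (2 * a ^ 3)
  obtain ⟨p, hp⟩ : ∃ p : k[X], p = X ^ 3 + C (-3 * a ^ 2) * X + C (2 * a ^ 3) := ⟨_, rfl⟩
  have hp1 : p.eval a = 0 := by
    rw [hp]
    simp only [eval_add, eval_mul, eval_pow, eval_X, eval_C]
    ring
  have hp2 : p.eval (-2 * a) = 0 := by
    rw [hp]
    simp only [eval_add, eval_mul, eval_pow, eval_X, eval_C]
    ring
  rw [← hp] at hm hpd
  set r := g %ₘ p with hr
  have hd : r.natDegree < 3 := by
    have := natDegree_modByMonic_lt g hm (by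
      intro h
      have := congrArg natDegree h
      rw [hpd, natDegree_one] at this
      norm_num at this)
    rwa [hpd] at this
  have hg : g = r + p * (g /ₘ p) := (modByMonic_add_div g _).symm
  have hr3 : r = C (r.coeff 0) + C (r.coeff 1) * X + C (r.coeff 2) * X ^ 2 := by
    conv_lhs => rw [as_sum_range' r 3 hd]
    simp only [Finset.sum_range_succ, Finset.sum_range_zero, ← C_mul_X_pow_eq_monomial]
    simp
  have hmk : AdjoinRoot.mk p g = AdjoinRoot.mk p r := by
    conv_lhs => rw [hg]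
    rw [map_add, map_mul, AdjoinRoot.mk_self, zero_mul, add_zero]
  have e1 : g.eval a = r.eval a := by
    conv_lhs => rw [hg]
    rw [eval_add, eval_mul, hp1, zero_mul, add_zero]
  have e2 : g.eval (-2 * a) = r.eval (-2 * a) := by
    conv_lhs => rw [hg]
    rw [eval_add, eval_mul, hp2, zero_mul, add_zero]
  rw [← hp, hmk, e1, e2, hr3, hp, norm_cb, Matrix.det_fin_three]
  simp
  ring

end norm

/-! ### Finite fields -/

/-- A point on a conic. -/
theorem conic {k : Type} [Field k] [Finite k] (h2 : (2 : k) ≠ 0) (h7 : 7 ≤ Nat.card k) {c δ : k}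
    (hc : c ≠ 0) (hδ : δ ≠ 0) : ∃ s t : k, s ≠ 0 ∧ t ≠ 0 ∧ s ^ 2 = c * (t ^ 2 + δ) := by
  haveI : Fintype k := Fintype.ofFinite k
  obtain ⟨s₀, t₀, h0⟩ : ∃ s₀ t₀ : k, s₀ ^ 2 = c * (t₀ ^ 2 + δ) := by
    have hodd : Fintype.card k % 2 = 1 := by
      apply FiniteField.odd_card_of_char_ne_two
      intro h
      haveI := ringChar.of_eq h
      exact h2 (CharTwo.two_eq_zero)
    have hq : (X ^ 2 : k[X]).degree = 2 := by rw [degree_X_pow]; rfl
    have hq' : (C (-c) * (X ^ 2 + C δ) : k[X]).degree = 2 := by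
      rw [degree_C_mul (neg_ne_zero.2 hc)]
      compute_degree!
    obtain ⟨a, b, hab⟩ := FiniteField.exists_root_sum_quadratic hq hq' hodd
    refine ⟨a, b, ?_⟩
    simp only [eval_mul, eval_add, eval_pow, eval_X, eval_C] at hab
    linear_combination hab
  -- the parametrization
  let P : k[X] := (X ^ 2 - C c) * ((C s₀ * X ^ 2 + C (2 * c * t₀) * X + C (c * s₀)) *
    (C t₀ * X ^ 2 + C (2 * s₀) * X + C (c * t₀)))
  have hne : s₀ ≠ 0 ∨ t₀ ≠ 0 := by
    by_contra hh
    push Not at hh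
    rw [hh.1, hh.2] at h0
    apply mul_ne_zero hc hδ
    linear_combination -h0
  have hP : P ≠ 0 := by
    refine mul_ne_zero ?_ (mul_ne_zero ?_ ?_)
    · exact X_pow_sub_C_ne_zero (by norm_num) c
    · intro h
      have h3 := congrArg (fun p : k[X] => p.coeff 2) h
      have h4 := congrArg (fun p : k[X] => p.coeff 1) h
      simp [coeff_X, coeff_C] at h3 h4
      rcases hne with h | h
      · exact h h3
      · rcases h4 with (h4 | h4) | h4
        · exact h2 h4
        · exact hc h4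
        · exact h h4
    · intro h
      have h3 := congrArg (fun p : k[X] => p.coeff 2) h
      have h4 := congrArg (fun p : k[X] => p.coeff 1) h
      simp [coeff_X, coeff_C] at h3 h4
      rcases hne with h | h
      · rcases h4 with h4 | h4
        · exact h2 h4
        · exact h h4
      · exact h h3
  have hdeg : P.natDegree ≤ 6 := by
    show ((X ^ 2 - C c) * ((C s₀ * X ^ 2 + C (2 * c * t₀) * X + C (c * s₀)) *
      (C t₀ * X ^ 2 + C (2 * s₀) * X + C (c * t₀)))).natDegree ≤ 6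
    compute_degree
  obtain ⟨m, hm⟩ : ∃ m : k, P.eval m ≠ 0 := by
    by_contra hh
    push Not at hh
    apply hP
    apply eq_zero_of_natDegree_lt_card_of_eval_eq_zero' P Finset.univ (fun i _ => hh i)
    rw [Finset.card_univ, ← Nat.card_eq_fintype_card]
    omega
  have hm' : (m ^ 2 - c) * ((s₀ * m ^ 2 + 2 * c * t₀ * m + c * s₀) *
      (t₀ * m ^ 2 + 2 * s₀ * m + c * t₀)) ≠ 0 := by
    have e : P.eval m = (m ^ 2 - c) * ((s₀ * m ^ 2 + 2 * c * t₀ * m + c * s₀) *
      (t₀ * m ^ 2 + 2 * s₀ * m + c * t₀)) := by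
      simp [P]
    rwa [e] at hm
  have h4 := left_ne_zero_of_mul hm'
  have h5 := left_ne_zero_of_mul (right_ne_zero_of_mul hm')
  have h6 := right_ne_zero_of_mul (right_ne_zero_of_mul hm')
  refine ⟨(s₀ * m ^ 2 + 2 * c * t₀ * m + c * s₀) / (m ^ 2 - c),
    (t₀ * m ^ 2 + 2 * s₀ * m + c * t₀) / (m ^ 2 - c), div_ne_zero h5 h4, div_ne_zero h6 h4, ?_⟩
  field_simp
  linear_combination (m ^ 2 - c) ^ 2 * h0

/-- A square root modulo `(X - a) ^ 2 (X - b)`. -/
theorem sqrt_dbl {k : Type} [Field k] (h2 : (2 : k) ≠ 0) {a b : k} (hab : a ≠ b) (G : k[X])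
    {σ τ : k} (hσ : σ ≠ 0) (h1 : G.eval a = σ ^ 2) (h3 : G.eval b = τ ^ 2) :
    ∃ s : k[X], (X - C a) ^ 2 * (X - C b) ∣ G - s ^ 2 := by
  obtain ⟨G1, hG1⟩ : X - C a ∣ G - C (G.eval a) := X_sub_C_dvd_sub_C_eval
  have hba : b - a ≠ 0 := sub_ne_zero.2 (Ne.symm hab)
  -- `s₁ = σ + (G1(a) / (2σ)) (X - a)`
  set μ := G1.eval a / (2 * σ) with hμ
  have hμ' : 2 * σ * μ = G1.eval a := by
    rw [hμ]
    field_simp
  obtain ⟨G2, hG2⟩ : X - C a ∣ G1 - C (G1.eval a) := X_sub_C_dvd_sub_C_eval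
  set t := (τ - (σ + μ * (b - a))) / (b - a) ^ 2 with ht
  have ht' : t * (b - a) ^ 2 = τ - (σ + μ * (b - a)) := by
    rw [ht]
    field_simp
  refine ⟨C σ + C μ * (X - C a) + C t * (X - C a) ^ 2, ?_⟩
  have hA : (X - C a) ^ 2 ∣ G - (C σ + C μ * (X - C a) + C t * (X - C a) ^ 2) ^ 2 := by
    refine ⟨G2 - C μ ^ 2 - C t * (2 * (C σ + C μ * (X - C a)) + C t * (X - C a) ^ 2), ?_⟩
    rw [h1] at hG1
    have e1 : G = C (σ ^ 2) + (X - C a) * G1 := by rw [← hG1]; ring
    have e2 : G1 = C (2 * σ * μ) + (X - C a) * G2 := by rw [← hG2, hμ']; ring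
    rw [e1, e2]
    simp only [C_mul, C_pow, C_ofNat]
    ring
  have hB : (X - C b) ∣ G - (C σ + C μ * (X - C a) + C t * (X - C a) ^ 2) ^ 2 := by
    rw [dvd_iff_isRoot, IsRoot.def]
    simp only [eval_sub, eval_add, eval_mul, eval_pow, eval_C, eval_X, h3]
    have : σ + μ * (b - a) + t * (b - a) ^ 2 = τ := by rw [ht']; ring
    rw [this, sub_self]
  refine IsCoprime.mul_dvd ?_ hA hB
  apply IsCoprime.pow_left
  exact isCoprime_X_sub_C_of_isUnit_sub (isUnit_iff_ne_zero.2 (sub_ne_zero.2 hab))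

/-! ### Lifting to the completion -/

section lift

variable {F : Type} [Field F] [NumberField F] (w : HeightOneSpectrum (𝓞 F))

theorem mem_max {a : 𝓞 F} (ha : a ∈ w.asIdeal) :
    algebraMap (𝓞 F) (w.adicCompletionIntegers F) a ∈
      IsLocalRing.maximalIdeal (w.adicCompletionIntegers F) := by
  rw [IsLocalRing.mem_maximalIdeal, mem_nonunits_iff]
  intro hu
  obtain ⟨u, hu⟩ := hu
  have h1 : ((u : w.adicCompletionIntegers F) : w.adicCompletion F) *
      ((u⁻¹ : (w.adicCompletionIntegers F)ˣ) : w.adicCompletionIntegers F) = 1 := by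
    rw [← MulMemClass.coe_mul, Units.mul_inv]
    rfl
  have h2 := congrArg (Valued.v) h1
  rw [map_mul, map_one, hu] at h2
  have h3 : Valued.v ((algebraMap (𝓞 F) (w.adicCompletionIntegers F) a : w.adicCompletionIntegers F) :
      w.adicCompletion F) < 1 := by
    have e : Valued.v (algebraMap F (w.adicCompletion F) (algebraMap (𝓞 F) F a)) =
        w.valuation F (algebraMap (𝓞 F) F a) :=
      HeightOneSpectrum.valuedAdicCompletion_eq_valuation' w _
    refine lt_of_eq_of_lt e ?_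
    exact (w.valuation_lt_one_iff_mem (K := F) a).2 ha
  have h5 : Valued.v ((((u⁻¹ : (w.adicCompletionIntegers F)ˣ) : w.adicCompletionIntegers F)) :
      w.adicCompletion F) ≤ 1 :=
    (((u⁻¹ : (w.adicCompletionIntegers F)ˣ) : w.adicCompletionIntegers F)).2
  have h6 := mul_lt_one_of_lt_of_le h3 h5
  rw [h2] at h6
  exact lt_irrefl _ h6

theorem coeff_mem {p : (𝓞 F)[X]} (hp : rd w.asIdeal p = 0) (i : ℕ) :
    (p.map (algebraMap (𝓞 F) (w.adicCompletionIntegers F))).coeff i ∈
      IsLocalRing.maximalIdeal (w.adicCompletionIntegers F) := by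
  rw [coeff_map]
  apply mem_max
  have h1 := congrArg (fun p => p.coeff i) hp
  simp only [rd, coeff_map, coeff_zero] at h1
  exact Ideal.Quotient.eq_zero_iff_mem.1 h1

/-- The polynomial over the completion. -/
theorem map_map_E (p : (𝓞 F)[X]) :
    (p.map (algebraMap (𝓞 F) (w.adicCompletionIntegers F))).map
      (algebraMap (w.adicCompletionIntegers F) (w.adicCompletion F)) =
    (fF p).map (algebraMap F (w.adicCompletion F)) := by
  rw [fF, Polynomial.map_map, Polynomial.map_map]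
  rfl

/-- Square roots modulo `(w, f)` can be lifted to square roots modulo `f` over the completion. -/
theorem lift_sq (h : S_HENQ) {f G : (𝓞 F)[X]} (hf : f.Monic) (h2 : (2 : 𝓞 F) ∉ w.asIdeal)
    (hc : IsCoprime (rd w.asIdeal G) (rd w.asIdeal f)) {s : (𝓞 F ⧸ w.asIdeal)[X]}
    (hs : rd w.asIdeal f ∣ rd w.asIdeal G - s ^ 2) :
    ∃ y : (w.adicCompletion F)[X], (fF f).map (algebraMap F (w.adicCompletion F)) ∣
      (fF G).map (algebraMap F (w.adicCompletion F)) - y ^ 2 := by
  haveI := w.isPrime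
  haveI := w.isMaximal
  letI : Field (𝓞 F ⧸ w.asIdeal) := Ideal.Quotient.field _
  have hsurj : Function.Surjective (Polynomial.map (Ideal.Quotient.mk w.asIdeal)) :=
    Polynomial.map_surjective _ Ideal.Quotient.mk_surjective
  have h2' : (2 : 𝓞 F ⧸ w.asIdeal) ≠ 0 := by
    intro h0
    apply h2
    apply Ideal.Quotient.eq_zero_iff_mem.1
    rw [map_ofNat]
    exact h0
  obtain ⟨S, rfl⟩ := hsurj s
  obtain ⟨q, hq⟩ := hs
  obtain ⟨Q, rfl⟩ := hsurj q
  -- `S` is invertible
  have hcs : IsCoprime (rd w.asIdeal S) (rd w.asIdeal f) := by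
    obtain ⟨u, v, huv⟩ := hc
    have e : rd w.asIdeal G = rd w.asIdeal S ^ 2 + rd w.asIdeal f * rd w.asIdeal Q := by
      rw [← hq]; ring
    rw [e] at huv
    exact ⟨u * rd w.asIdeal S, v + u * rd w.asIdeal Q, by rw [← huv]; ring⟩
  obtain ⟨u, v, huv⟩ := hcs
  obtain ⟨U, hU⟩ := hsurj (C (2⁻¹ : 𝓞 F ⧸ w.asIdeal) * u)
  obtain ⟨V, hV⟩ := hsurj (-v)
  have h22 : (2 : (𝓞 F ⧸ w.asIdeal)[X]) * C (2⁻¹ : 𝓞 F ⧸ w.asIdeal) = 1 := by
    rw [← C_ofNat, ← C_mul, mul_inv_cancel₀ h2', C_1]
  have k1 : rd w.asIdeal (S ^ 2 - G + f * Q) = 0 := by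
    simp only [rd, Polynomial.map_add, Polynomial.map_sub, Polynomial.map_mul, Polynomial.map_pow]
      at hq ⊢
    linear_combination -hq
  have k2 : rd w.asIdeal (2 * S * U - 1 - f * V) = 0 := by
    simp only [rd, Polynomial.map_sub, Polynomial.map_mul, Polynomial.map_ofNat,
      Polynomial.map_one, hU, hV] at huv ⊢
    linear_combination (Polynomial.map (Ideal.Quotient.mk w.asIdeal) S * u) * h22 + huv
  obtain ⟨y, hy⟩ := h F w (f.map (algebraMap (𝓞 F) (w.adicCompletionIntegers F))) 0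
    (-(G.map (algebraMap (𝓞 F) (w.adicCompletionIntegers F))))
    (S.map (algebraMap (𝓞 F) (w.adicCompletionIntegers F)))
    (U.map (algebraMap (𝓞 F) (w.adicCompletionIntegers F)))
    (-(Q.map (algebraMap (𝓞 F) (w.adicCompletionIntegers F))))
    (V.map (algebraMap (𝓞 F) (w.adicCompletionIntegers F))) (hf.map _)
    (fun i => by
      have e := coeff_mem w k1 i
      simp only [Polynomial.map_add, Polynomial.map_sub, Polynomial.map_mul,
        Polynomial.map_pow] at e
      convert e using 2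
      ring)
    (fun i => by
      have e := coeff_mem w k2 i
      simp only [Polynomial.map_add, Polynomial.map_sub, Polynomial.map_mul,
        Polynomial.map_pow, Polynomial.map_ofNat, Polynomial.map_one] at e
      convert e using 2
      ring)
  refine ⟨y.map (algebraMap (w.adicCompletionIntegers F) (w.adicCompletion F)), ?_⟩
  have h3 := Polynomial.map_dvd (algebraMap (w.adicCompletionIntegers F) (w.adicCompletion F)) hy
  rw [map_map_E] at h3
  simp only [Polynomial.map_add, Polynomial.map_neg, Polynomial.map_mul, Polynomial.map_pow,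
    Polynomial.map_zero, zero_mul, add_zero] at h3
  rw [map_map_E] at h3
  rw [← dvd_neg]
  convert h3 using 1
  ring

end lift

/-! ### The piece -/

/-- The isomorphism with the field generated by a zero, norms. -/
theorem norm_adj {K Ω : Type} [Field K] [Field Ω] [Algebra K Ω] [FiniteDimensional K Ω] {p : K[X]}
    (hp : Irreducible p) (hm : p.Monic) {Θ : Ω} (h0 : aeval Θ p = 0)
    (hr : Module.finrank K Ω = p.natDegree) (q : K[X]) :
    Algebra.norm K (AdjoinRoot.mk p q) = Algebra.norm K (aeval Θ q) := by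
  haveI hfact' : Fact (Irreducible p) := ⟨hp⟩
  obtain ⟨φ, hφ⟩ : ∃ φ : AdjoinRoot p →ₐ[K] Ω,
    φ = AdjoinRoot.liftAlgHom p (Algebra.ofId K _) Θ h0 := ⟨_, rfl⟩
  have hφmk : ∀ q : K[X], φ (AdjoinRoot.mk p q) = aeval Θ q := by
    intro q
    have h1 := AdjoinRoot.liftAlgHom_mk p (Algebra.ofId K Ω) Θ h0 q
    rw [Algebra.toRingHom_ofId, ← Polynomial.aeval_def] at h1
    rw [hφ]
    exact h1
  have hφinj : Function.Injective φ := φ.toRingHom.injective
  haveI : FiniteDimensional K (AdjoinRoot p) := hm.finite_adjoinRoot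
  have hrk : Module.finrank K (AdjoinRoot p) = Module.finrank K Ω := by
    rw [hr, (AdjoinRoot.powerBasis hm.ne_zero).finrank, AdjoinRoot.powerBasis_dim]
  have hφsurj : Function.Surjective φ :=
    (LinearMap.injective_iff_surjective_of_finrank_eq_finrank (f := φ.toLinearMap) hrk).1 hφinj
  have h1 := Algebra.norm_eq_of_algEquiv (AlgEquiv.ofBijective φ ⟨hφinj, hφsurj⟩)
    (AdjoinRoot.mk p q)
  have h2 : (AlgEquiv.ofBijective φ ⟨hφinj, hφsurj⟩) (AdjoinRoot.mk p q) = aeval Θ q := hφmk q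
  rw [h2] at h1
  exact h1.symm

/-- MULW. -/
theorem mulw (h1 : S_RES) (h2 : S_HENQ) (h3 : S_PL) : S_MULW := by
  intro F L _ _ _ _ _ f θ hG hf2 w h6 h7 hd hd2 h hne hsq hEv
  haveI := w.isPrime
  haveI := w.isMaximal
  obtain ⟨a, u, hau, hu, hcop, hnorm⟩ := h1 1 F L f θ hG w hd2 h hne hEv
  obtain ⟨-, hnk⟩ := hnorm hsq
  have h62 : (2 : 𝓞 F) ∉ w.asIdeal := by
    intro hh
    apply h6
    have : (6 : 𝓞 F) = 3 * 2 := by norm_num
    rw [this]
    exact Ideal.mul_mem_left _ _ hh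
  have h63 : (3 : 𝓞 F) ∉ w.asIdeal := by
    intro hh
    apply h6
    have : (6 : 𝓞 F) = 2 * 3 := by norm_num
    rw [this]
    exact Ideal.mul_mem_left _ _ hh
  -- the coefficients
  obtain ⟨A, hA⟩ : ∃ A, A = f.coeff 1 := ⟨_, rfl⟩
  obtain ⟨B, hB⟩ : ∃ B, B = f.coeff 0 := ⟨_, rfl⟩
  have hdeg : f.natDegree = 3 := hG.deg
  have hfp : f = X ^ 3 + C A * X + C B := by
    have hc3 : f.coeff 3 = 1 := by
      have := hG.mon.coeff_natDegree
      rwa [hdeg] at this
    conv_lhs => rw [as_sum_range' f 4 (by omega)]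
    simp only [Finset.sum_range_succ, Finset.sum_range_zero, ← C_mul_X_pow_eq_monomial]
    rw [hc3, hf2, ← hA, ← hB]
    simp
    ring
  have hdsc : dsc 1 f = 4 * A ^ 3 + 27 * B ^ 2 := by
    have := Pool.Agent.Run7.h245.NF.dsc_pol A B
    rw [← this]
    congr 1
  rw [← hA, ← hB]
  obtain ⟨π, hπ⟩ : ∃ π : 𝓞 F →+* 𝓞 F ⧸ w.asIdeal, π = Ideal.Quotient.mk w.asIdeal := ⟨_, rfl⟩
  have hπ0 : ∀ x : 𝓞 F, π x = 0 ↔ x ∈ w.asIdeal := by
    intro x
    rw [hπ]
    exact Ideal.Quotient.eq_zero_iff_mem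
  letI : Field (𝓞 F ⧸ w.asIdeal) := Ideal.Quotient.field _
  haveI hfin : Finite (𝓞 F ⧸ w.asIdeal) := by
    apply Nat.finite_of_card_ne_zero
    omega
  have k2 : (2 : 𝓞 F ⧸ w.asIdeal) ≠ 0 := by
    intro h0
    apply h62
    rw [← hπ0, map_ofNat]
    exact h0
  have k3 : (3 : 𝓞 F ⧸ w.asIdeal) ≠ 0 := by
    intro h0
    apply h63
    rw [← hπ0, map_ofNat]
    exact h0
  have hd' : 4 * π A ^ 3 + 27 * π B ^ 2 = 0 := by
    rw [hdsc, ← hπ0, map_add, map_mul, map_mul, map_pow, map_pow, map_ofNat, map_ofNat] at hd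
    exact hd
  have hA0 : π A ≠ 0 := by
    intro h0
    have hB0 : π B = 0 := by
      rw [h0] at hd'
      have h4 : (3 : 𝓞 F ⧸ w.asIdeal) ^ 3 * π B ^ 2 = 0 := by linear_combination hd'
      rcases mul_eq_zero.1 h4 with h5 | h5
      · exact absurd (pow_eq_zero_iff (by norm_num) |>.1 h5) k3
      · exact pow_eq_zero_iff (by norm_num) |>.1 h5
    apply hd2
    rw [hdsc]
    rw [hπ0] at h0 hB0
    have h4 : A ^ 3 ∈ w.asIdeal ^ 2 := by
      have := Ideal.mul_mem_left (w.asIdeal ^ 2) A (Ideal.pow_mem_pow h0 2)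
      have e : A ^ 3 = A * A ^ 2 := by ring
      rw [e]
      exact this
    have h5 : B ^ 2 ∈ w.asIdeal ^ 2 := Ideal.pow_mem_pow hB0 2
    exact Ideal.add_mem _ (Ideal.mul_mem_left _ _ h4) (Ideal.mul_mem_left _ _ h5)
  obtain ⟨a₀, ha₀d⟩ : ∃ a₀, a₀ = -3 * π B / (2 * π A) := ⟨_, rfl⟩
  have ha₀e : 2 * π A * a₀ = -3 * π B := by
    rw [ha₀d]
    field_simp
  have e1 : π A = -3 * a₀ ^ 2 := by
    have h4 : (2 * π A) ^ 2 * (π A - (-3 * a₀ ^ 2)) = 0 := by
      have : (2 * π A) ^ 2 * (π A - (-3 * a₀ ^ 2)) = 4 * π A ^ 3 + 3 * (2 * π A * a₀) ^ 2 := by ring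
      rw [this, ha₀e]
      linear_combination hd'
    rcases mul_eq_zero.1 h4 with h5 | h5
    · exact absurd h5 (pow_ne_zero _ (mul_ne_zero k2 hA0))
    · exact sub_eq_zero.1 h5
  have ha₀ : a₀ ≠ 0 := by
    rintro h0
    apply hA0
    rw [e1, h0]
    ring
  have e2 : π B = 2 * a₀ ^ 3 := by
    have h4 : 3 * (π B - 2 * a₀ ^ 3) = 0 := by
      have h5 : 2 * π A * a₀ = -3 * π B := ha₀e
      rw [e1] at h5
      linear_combination h5
    rcases mul_eq_zero.1 h4 with h5 | h5
    · exact absurd h5 k3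
    · exact sub_eq_zero.1 h5
  have hrd : rd w.asIdeal f = X ^ 3 + C (-3 * a₀ ^ 2) * X + C (2 * a₀ ^ 3) := by
    rw [hfp, rd]
    simp only [Polynomial.map_add, Polynomial.map_mul, Polynomial.map_pow, Polynomial.map_X,
      Polynomial.map_C]
    rw [← hπ, e1, e2]
  have hrd' : rd w.asIdeal f = (X - C a₀) ^ 2 * (X - C (-2 * a₀)) := by
    rw [hrd]
    simp only [C_mul, C_neg, C_pow, C_ofNat]
    ring
  have hev1 : (rd w.asIdeal f).eval a₀ = 0 := by rw [hrd']; simp
  have hev2 : (rd w.asIdeal f).eval (-2 * a₀) = 0 := by rw [hrd']; simp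
  have hab : a₀ ≠ -2 * a₀ := by
    intro h0
    apply mul_ne_zero k3 ha₀
    linear_combination h0
  have hcop' := hcop
  obtain ⟨p, q, hpq⟩ := hcop'
  have hα : (rd w.asIdeal a).eval a₀ ≠ 0 := by
    intro h0
    have := congrArg (eval a₀) hpq
    rw [eval_add, eval_mul, eval_mul, h0, hev1, mul_zero, mul_zero, add_zero, eval_one] at this
    exact zero_ne_one this
  have hβ : (rd w.asIdeal a).eval (-2 * a₀) ≠ 0 := by
    intro h0
    have := congrArg (eval (-2 * a₀)) hpq
    rw [eval_add, eval_mul, eval_mul, h0, hev2, mul_zero, mul_zero, add_zero, eval_one] at this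
    exact zero_ne_one this
  obtain ⟨γ, hγ⟩ : ∃ γ, (rd w.asIdeal a).eval (-2 * a₀) = γ ^ 2 := by
    rw [hrd] at hnk
    have h4 := norm_dbl a₀ (rd w.asIdeal a)
    have h5 : IsSquare ((rd w.asIdeal a).eval a₀ ^ 2 * (rd w.asIdeal a).eval (-2 * a₀)) := by
      rw [← h4]
      exact hnk
    obtain ⟨z, hz⟩ := h5
    refine ⟨z / (rd w.asIdeal a).eval a₀, ?_⟩
    generalize (rd w.asIdeal a).eval a₀ = α at *
    generalize (rd w.asIdeal a).eval (-2 * a₀) = β at *
    rw [div_pow, eq_div_iff (pow_ne_zero 2 hα)]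
    linear_combination hz
  have hγ0 : γ ≠ 0 := by
    rintro rfl
    apply hβ
    rw [hγ]
    ring
  have hδ : (-3 * a₀ : 𝓞 F ⧸ w.asIdeal) ≠ 0 := mul_ne_zero (neg_ne_zero.2 k3) ha₀
  obtain ⟨s, t, hs, ht, hst⟩ := conic k2 h7 hα hδ
  -- the point
  obtain ⟨x₀, hx₀⟩ : ∃ x₀ : 𝓞 F, π x₀ = -2 * a₀ + t ^ 2 := by
    rw [hπ]
    exact Ideal.Quotient.mk_surjective _
  have hxa : π x₀ - a₀ ≠ 0 := by
    intro h0
    rw [hx₀] at h0
    apply hs
    have : s ^ 2 = 0 := by
      rw [hst]
      have : t ^ 2 + -3 * a₀ = 0 := by linear_combination h0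
      rw [this, mul_zero]
    exact pow_eq_zero_iff (by norm_num) |>.1 this
  have hxb : π x₀ - (-2 * a₀) ≠ 0 := by
    intro h0
    rw [hx₀] at h0
    apply pow_ne_zero 2 ht
    linear_combination h0
  have hrG : rd w.asIdeal (a * (C x₀ - X)) = rd w.asIdeal a * (C (π x₀) - X) := by
    rw [hπ, rd, Polynomial.map_mul, Polynomial.map_sub, Polynomial.map_C, Polynomial.map_X]
  obtain ⟨sb, hsb⟩ := sqrt_dbl k2 hab (rd w.asIdeal (a * (C x₀ - X))) (σ := s) (τ := γ * t) hs
    (by
      rw [hrG, eval_mul, eval_sub, eval_C, eval_X, hst, hx₀]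
      ring)
    (by
      rw [hrG, eval_mul, eval_sub, eval_C, eval_X, hγ, hx₀]
      ring)
  rw [← hrd'] at hsb
  have hcG : IsCoprime (rd w.asIdeal (a * (C x₀ - X))) (rd w.asIdeal f) := by
    rw [hrG]
    refine IsCoprime.mul_left hcop ?_
    have e : (C (π x₀) - X : (𝓞 F ⧸ w.asIdeal)[X]) = -(X - C (π x₀)) := by ring
    rw [e, IsCoprime.neg_left_iff, hrd']
    refine IsCoprime.mul_right (IsCoprime.pow_right ?_) ?_
    · exact isCoprime_X_sub_C_of_isUnit_sub (isUnit_iff_ne_zero.2 hxa)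
    · exact isCoprime_X_sub_C_of_isUnit_sub (isUnit_iff_ne_zero.2 hxb)
  obtain ⟨y, hy⟩ := lift_sq w h2 hG.mon h62 hcG hsb
  -- the field `L`
  have hmin := Pool.Agent.N459.PF.minp hG
  have hirr : Irreducible (fF f) := by
    rw [← hmin]
    exact minpoly.irreducible (Pool.Agent.N459.PF.pb hG).isIntegral_gen
  have hcb : fF f = cb (A : F) (B : F) := by
    rw [hfp, fF, cb]
    simp only [Polynomial.map_add, Polynomial.map_mul, Polynomial.map_pow, Polynomial.map_X,
      Polynomial.map_C]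
  have hcop_of : ∀ q : F[X], aeval θ q ≠ 0 → IsCoprime q (fF f) := by
    intro q hq
    apply IsCoprime.symm
    rw [hirr.coprime_iff_not_dvd]
    rintro ⟨r, hr⟩
    apply hq
    rw [hr, map_mul, hG.root, zero_mul]
  have haθ : aeval θ (fF a) ≠ 0 := by
    intro h0
    obtain ⟨r, hr⟩ := hau
    have h4 := congrArg (aeval θ) hr
    rw [map_sub, map_mul, map_mul, map_pow, h0, hG.root, mul_zero, zero_mul, zero_sub,
      neg_eq_zero] at h4
    exact hu (pow_eq_zero_iff (by norm_num) |>.1 h4)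
  obtain ⟨c, d, hcd⟩ := hcop_of _ haθ
  have hfinL : Module.Finite F L := by
    apply Module.finite_of_finrank_pos
    rw [hG.rank]
    norm_num
  have hfx : f.eval x₀ ≠ 0 := by
    intro h0
    have h4 : (rd w.asIdeal f).eval (π x₀) = 0 := by
      have : (rd w.asIdeal f).eval (π x₀) = π (f.eval x₀) := by
        rw [hπ, rd, eval_map, eval₂_hom]
      rw [this, h0, map_zero]
    rw [hrd'] at h4
    simp only [eval_mul, eval_pow, eval_sub, eval_X, eval_C] at h4
    rcases mul_eq_zero.1 h4 with h5 | h5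
    · exact hxa (pow_eq_zero_iff (by norm_num) |>.1 h5)
    · exact hxb h5
  refine h3 F (w.adicCompletion F) (A : F) (B : F) h
    (algebraMap F (w.adicCompletion F) (x₀ : F))
    (u.map (algebraMap F (w.adicCompletion F)) * y * c.map (algebraMap F (w.adicCompletion F)))
    ?_ ?_ ?_ ?_
  · rw [← hcb]
    exact hcop_of h hne
  · rw [← hcb, norm_adj hirr (hG.mon.map _) hG.root
      (by rw [hG.rank, fF, hG.mon.natDegree_map, hG.deg])]
    exact hsq
  · intro h0
    apply hfx
    have h4 : algebraMap F (w.adicCompletion F) (algebraMap (𝓞 F) F (f.eval x₀)) = 0 := by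
      rw [← h0, hfp]
      simp only [eval_add, eval_mul, eval_pow, eval_X, eval_C, map_add, map_mul, map_pow]
    rw [map_eq_zero] at h4
    exact (FaithfulSMul.algebraMap_eq_zero_iff (𝓞 F) F).1 h4
  · have hE : X ^ 3 + C (algebraMap F (w.adicCompletion F) (A : F)) * X +
        C (algebraMap F (w.adicCompletion F) (B : F)) =
        (fF f).map (algebraMap F (w.adicCompletion F)) := by
      rw [hcb, cb]
      simp only [Polynomial.map_add, Polynomial.map_mul, Polynomial.map_pow, Polynomial.map_X,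
        Polynomial.map_C]
    rw [hE]
    have h5 := Polynomial.map_dvd (algebraMap F (w.adicCompletion F)) hau
    have h6 := congrArg (Polynomial.map (algebraMap F (w.adicCompletion F))) hcd
    have h8 : (fF (a * (C x₀ - X))).map (algebraMap F (w.adicCompletion F)) =
        (fF a).map (algebraMap F (w.adicCompletion F)) *
          (C (algebraMap F (w.adicCompletion F) (x₀ : F)) - X) := by
      simp only [fF, Polynomial.map_mul, Polynomial.map_sub, Polynomial.map_C, Polynomial.map_X]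
    rw [h8] at hy
    simp only [Polynomial.map_add, Polynomial.map_mul, Polynomial.map_sub, Polynomial.map_pow,
      Polynomial.map_one] at h5 h6
    generalize (fF f).map (algebraMap F (w.adicCompletion F)) = ff at *
    generalize (fF a).map (algebraMap F (w.adicCompletion F)) = aa at *
    generalize u.map (algebraMap F (w.adicCompletion F)) = uu at *
    generalize h.map (algebraMap F (w.adicCompletion F)) = hh at *
    generalize c.map (algebraMap F (w.adicCompletion F)) = cc at *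
    generalize d.map (algebraMap F (w.adicCompletion F)) = dd at *
    generalize C (algebraMap F (w.adicCompletion F) (x₀ : F)) - X = xx at *
    obtain ⟨r5, h5⟩ := h5
    obtain ⟨r7, hy⟩ := hy
    have e5 : hh * aa = uu ^ 2 + ff * r5 := by rw [← h5]; ring
    have e7 : aa * xx = y ^ 2 + ff * r7 := by rw [← hy]; ring
    -- `xx hh = xx hh (cc aa + dd ff) ^ 2`
    refine ⟨xx * hh * (2 * cc * aa * dd + dd ^ 2 * ff) +
      cc ^ 2 * (uu ^ 2 * r7 + r5 * (y ^ 2 + ff * r7)), ?_⟩
    have e8 : xx * hh = xx * hh * (cc * aa + dd * ff) ^ 2 := by rw [h6]; ring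
    have e9 : xx * hh * (cc * aa + dd * ff) ^ 2 = cc ^ 2 * ((hh * aa) * (aa * xx)) +
      ff * (xx * hh * (2 * cc * aa * dd + dd ^ 2 * ff)) := by ring
    rw [e5, e7] at e9
    linear_combination e8 + e9

end Pool.Agent.Run7.h890.SR
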